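import Pool.Agent.Q104.CT.Main

set_option autoImplicit false

/-!
# Non-conical limit points whose preimage has positive Hausdorff dimension

The free group of rank three acts on the quotient of its boundary in which the translates of the
boundary of a free factor of rank two are collapsed to points.
-/

namespace Pool.Agent.Results.MP_9c739d_al.CollapsedFactor

open Pool.Agent.Q104.CT

/-- The free group `H` of rank three has a non-elementary convergence action on a metrizable
compactum `Z` with a Cannon-Thurston map `φ` such that the preimage of the non-conical limit points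
has Hausdorff dimension at least one. -/
theorem result :
    ∃ (Z : Type) (_ : TopologicalSpace Z) (_ : MulAction H Z) (φ : Bd → Z),
      CompactSpace Z ∧ TopologicalSpace.MetrizableSpace Z ∧ IsConvergence H Z ∧
      (∃ x ∈ LimitSet H Z, ∃ y ∈ LimitSet H Z, ∃ z ∈ LimitSet H Z, x ≠ y ∧ x ≠ z ∧ y ≠ z) ∧
      Continuous φ ∧ (∀ (h : H) (p : Bd), φ (h • p) = h • φ p) ∧
      1 ≤ dimH (φ ⁻¹' NonConical H Z) := by
  have h0 : rep (0, true) ∈ PW := rep_mem _ (by decide)
  refine ⟨Z, inferInstance, inferInstance, phi, inferInstance, metrizable, isConvergence,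
    ⟨_, mem_limitSet (phi (rep (2, true))), _, mem_limitSet (phi (rep (2, false))), _,
      mem_limitSet (phi (rep (0, true))), phi_cc'_ne, phi_c_ne h0, phi_c'_ne h0⟩,
    phi_continuous, phi_smul, ?_⟩
  exact one_le_dimH.trans (dimH_mono fun p hp => PW_nonConical hp)

end Pool.Agent.Results.MP_9c739d_al.CollapsedFactor
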